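import Mathlib

/-!
# One scale controls all larger scales

`R(x, y) = (π(x + y) - π(x)) / (y / log x)`, `L(a)` and `U(a)` are the lower and the upper limit of
`R(x, (log x) ^ a)`. For `0 < a < b` every real `c < L(a)` is a lower bound, and every real
`c > U(a)` an upper bound, of `R(x, y)` for all large `x`, simultaneously for all real `y` with
`(log x) ^ b ≤ y ≤ x`. Hence `L` is nondecreasing and `U` is nonincreasing, and the assertion of Q1
is equivalent to `lim L(a) = lim U(a) = 1`, and also to the condition that for every `ε` there is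
one exponent `a` for which `R(x, (log x) ^ a)` is within `ε` of `1` for all large `x`.

Idea: tile `(x, x + y]` by the intervals `(x_i, x_i + (log x_i) ^ a]`, `x_0 = x`,
`x_{i+1} = x_i + (log x_i) ^ a`.
-/

set_option autoImplicit false

open Filter Topology

namespace Pool.Agent.Results.MP_293bbf_nt.OneScaleSuffices

/-- `R(x, y) = (π(x + y) - π(x)) / (y / log x)` -/
noncomputable def R (x y : ℝ) : ℝ :=
  ((Nat.primeCounting ⌊x + y⌋₊ : ℝ) - Nat.primeCounting ⌊x⌋₊) / (y / Real.log x)

/-- the lower limit of `R(x, (log x) ^ a)` as `x → ∞` -/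
noncomputable def L (a : ℝ) : EReal :=
  liminf (fun x : ℝ => ((R x (Real.log x ^ a) : ℝ) : EReal)) atTop

/-- the upper limit of `R(x, (log x) ^ a)` as `x → ∞` -/
noncomputable def U (a : ℝ) : EReal :=
  limsup (fun x : ℝ => ((R x (Real.log x ^ a) : ℝ) : EReal)) atTop

/-- the assertion of Q1 -/
def Uniform : Prop := ∀ ε : ℝ, 0 < ε → ∃ N : ℝ, 1 < N ∧
  ∀ x y : ℝ, N ≤ x → Real.log x ^ N ≤ y → y ≤ x → |R x y - 1| ≤ ε

/-- the number of primes up to `t` -/
noncomputable def pc (t : ℝ) : ℝ := (Nat.primeCounting ⌊t⌋₊ : ℝ)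

lemma pc_mono {s t : ℝ} (h : s ≤ t) : pc s ≤ pc t := by
  unfold pc
  exact_mod_cast Nat.monotone_primeCounting (Nat.floor_le_floor h)

lemma R_eq (x y : ℝ) : R x y = (pc (x + y) - pc x) / (y / Real.log x) := rfl

lemma R_nonneg {x y : ℝ} (hx : 1 ≤ x) (hy : 0 ≤ y) : 0 ≤ R x y := by
  rw [R_eq]
  apply div_nonneg
  · have := pc_mono (show x ≤ x + y by linarith)
    linarith
  · exact div_nonneg hy (Real.log_nonneg hx)

/-- the tiling -/
noncomputable def s (a x : ℝ) : ℕ → ℝ
  | 0 => x
  | k + 1 => s a x k + Real.log (s a x k) ^ a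

lemma log_ge_one {x : ℝ} (hx : Real.exp 1 ≤ x) : 1 ≤ Real.log x := by
  rw [Real.le_log_iff_exp_le (lt_of_lt_of_le (Real.exp_pos _) hx)]
  exact hx

lemma s_ge {a x : ℝ} (ha : 0 < a) (hx : Real.exp 1 ≤ x) : ∀ k : ℕ, x + k ≤ s a x k := by
  intro k
  induction k with
  | zero => simp [s]
  | succ k ih =>
    have h0 : (0 : ℝ) ≤ k := Nat.cast_nonneg k
    have h1 : Real.exp 1 ≤ s a x k := by linarith
    have h2 : 1 ≤ Real.log (s a x k) ^ a := Real.one_le_rpow (log_ge_one h1) ha.le
    have h3 : s a x (k + 1) = s a x k + Real.log (s a x k) ^ a := rfl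
    rw [h3]
    push_cast
    linarith

lemma s_gex {a x : ℝ} (ha : 0 < a) (hx : Real.exp 1 ≤ x) (k : ℕ) : x ≤ s a x k := by
  have h0 : (0 : ℝ) ≤ k := Nat.cast_nonneg k
  have := s_ge ha hx k
  linarith

/-- the last point of the tiling up to `x + y` -/
lemma s_last {a x y : ℝ} (ha : 0 < a) (hx : Real.exp 1 ≤ x) (hy : 0 ≤ y) :
    ∃ k : ℕ, s a x k ≤ x + y ∧ x + y < s a x (k + 1) := by
  classical
  have hex : ∃ k : ℕ, x + y < s a x k := by
    obtain ⟨k, hk⟩ := exists_nat_gt y
    exact ⟨k, by have := s_ge ha hx k; linarith⟩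
  have h1 := Nat.find_spec hex
  rcases hk : Nat.find hex with _ | k
  · rw [hk] at h1
    simp only [s] at h1
    linarith
  · refine ⟨k, ?_, by rw [hk] at h1; exact h1⟩
    have h2 : ¬ x + y < s a x k := Nat.find_min hex (by omega)
    linarith

lemma lower {a c X x y : ℝ} (ha : 0 < a) (hc : 0 ≤ c) (hX : Real.exp 1 ≤ X)
    (h : ∀ z, X ≤ z → c ≤ R z (Real.log z ^ a)) (hx : X ≤ x) (hy : 0 ≤ y) :
    c * ((y - Real.log (x + y) ^ a) / Real.log (x + y)) ≤ pc (x + y) - pc x := by
  have hxe : Real.exp 1 ≤ x := hX.trans hx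
  have he : 0 < Real.exp 1 := Real.exp_pos _
  have hlog : 1 ≤ Real.log (x + y) := log_ge_one (by linarith)
  have key : ∀ k : ℕ, s a x k ≤ x + y →
      c * ((s a x k - x) / Real.log (x + y)) ≤ pc (s a x k) - pc x := by
    intro k
    induction k with
    | zero => intro _; simp [s]
    | succ k ih =>
      intro hk
      have h3 : s a x (k + 1) = s a x k + Real.log (s a x k) ^ a := rfl
      have h4 : x ≤ s a x k := s_gex ha hxe k
      have h5 : 1 ≤ Real.log (s a x k) := log_ge_one (by linarith)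
      have h6 : 0 ≤ Real.log (s a x k) ^ a := by positivity
      have h7 : s a x k ≤ x + y := by linarith
      have h8 := ih h7
      have h9 := h (s a x k) (by linarith)
      rw [R_eq, ← h3] at h9
      have h10 : 0 < Real.log (s a x k) ^ a / Real.log (s a x k) := by positivity
      rw [le_div_iff₀ h10] at h9
      have h11 : Real.log (s a x k) ≤ Real.log (x + y) := Real.log_le_log (by linarith) h7
      have h12 : Real.log (s a x k) ^ a / Real.log (x + y) ≤
          Real.log (s a x k) ^ a / Real.log (s a x k) := by gcongr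
      have h13 := mul_le_mul_of_nonneg_left h12 hc
      have h14 : c * ((s a x (k + 1) - x) / Real.log (x + y)) =
          c * ((s a x k - x) / Real.log (x + y)) + c * (Real.log (s a x k) ^ a / Real.log (x + y)) := by
        rw [h3]; ring
      rw [h14]
      linarith
  obtain ⟨k, hk1, hk2⟩ := s_last ha hxe hy
  have h1 := key k hk1
  have h2 := pc_mono hk1
  have h3 : s a x (k + 1) = s a x k + Real.log (s a x k) ^ a := rfl
  have h4 : x ≤ s a x k := s_gex ha hxe k
  have h5 : 1 ≤ Real.log (s a x k) := log_ge_one (by linarith)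
  have h6 : Real.log (s a x k) ^ a ≤ Real.log (x + y) ^ a :=
    Real.rpow_le_rpow (by linarith) (Real.log_le_log (by linarith) hk1) ha.le
  have h7 : y - Real.log (x + y) ^ a ≤ s a x k - x := by linarith
  have h8 : c * ((y - Real.log (x + y) ^ a) / Real.log (x + y)) ≤
      c * ((s a x k - x) / Real.log (x + y)) := by gcongr
  linarith

lemma upper {a c X x y : ℝ} (ha : 0 < a) (hc : 0 ≤ c) (hX : Real.exp 1 ≤ X)
    (h : ∀ z, X ≤ z → R z (Real.log z ^ a) ≤ c) (hx : X ≤ x) (hy : 0 ≤ y) :
    pc (x + y) - pc x ≤ c * ((y + Real.log (x + y) ^ a) / Real.log x) := by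
  have hxe : Real.exp 1 ≤ x := hX.trans hx
  have he : 0 < Real.exp 1 := Real.exp_pos _
  have hlog : 1 ≤ Real.log x := log_ge_one hxe
  have key : ∀ k : ℕ, pc (s a x k) - pc x ≤ c * ((s a x k - x) / Real.log x) := by
    intro k
    induction k with
    | zero => simp [s]
    | succ k ih =>
      have h3 : s a x (k + 1) = s a x k + Real.log (s a x k) ^ a := rfl
      have h4 : x ≤ s a x k := s_gex ha hxe k
      have h5 : 1 ≤ Real.log (s a x k) := log_ge_one (by linarith)
      have h6 : 0 ≤ Real.log (s a x k) ^ a := by positivity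
      have h9 := h (s a x k) (by linarith)
      rw [R_eq, ← h3] at h9
      have h10 : 0 < Real.log (s a x k) ^ a / Real.log (s a x k) := by positivity
      rw [div_le_iff₀ h10] at h9
      have h11 : Real.log x ≤ Real.log (s a x k) := Real.log_le_log (by linarith) h4
      have h12 : Real.log (s a x k) ^ a / Real.log (s a x k) ≤
          Real.log (s a x k) ^ a / Real.log x := by gcongr
      have h13 := mul_le_mul_of_nonneg_left h12 hc
      have h14 : c * ((s a x (k + 1) - x) / Real.log x) =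
          c * ((s a x k - x) / Real.log x) + c * (Real.log (s a x k) ^ a / Real.log x) := by
        rw [h3]; ring
      rw [h14]
      linarith
  obtain ⟨k, hk1, hk2⟩ := s_last ha hxe hy
  have h1 := key (k + 1)
  have h2 := pc_mono hk2.le
  have h3 : s a x (k + 1) = s a x k + Real.log (s a x k) ^ a := rfl
  have h4 : x ≤ s a x k := s_gex ha hxe k
  have h5 : 1 ≤ Real.log (s a x k) := log_ge_one (by linarith)
  have h6 : Real.log (s a x k) ^ a ≤ Real.log (x + y) ^ a :=
    Real.rpow_le_rpow (by linarith) (Real.log_le_log (by linarith) hk1) ha.le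
  have h7 : s a x (k + 1) - x ≤ y + Real.log (x + y) ^ a := by linarith
  have h8 : c * ((s a x (k + 1) - x) / Real.log x) ≤
      c * ((y + Real.log (x + y) ^ a) / Real.log x) := by gcongr
  linarith

lemma asym {a b δ : ℝ} (ha : 0 < a) (hab : a < b) (hδ : 0 < δ) : ∀ᶠ x : ℝ in atTop,
    ∀ y : ℝ, Real.log x ^ b ≤ y → y ≤ x →
      Real.log (x + y) ^ a ≤ δ * y ∧ Real.log (x + y) ≤ (1 + δ) * Real.log x := by
  have t1 : Tendsto (fun x : ℝ => Real.log x ^ (b - a)) atTop atTop :=
    (tendsto_rpow_atTop (sub_pos.2 hab)).comp Real.tendsto_log_atTop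
  filter_upwards [t1.eventually_ge_atTop (2 ^ a / δ), Real.tendsto_log_atTop.eventually_ge_atTop (1 / δ),
    Real.tendsto_log_atTop.eventually_ge_atTop 1, eventually_ge_atTop (1 : ℝ)] with x h1 h2 h3 h4
  intro y hy1 hy2
  have h5 : 0 < Real.log x ^ b := by positivity
  have hy0 : 0 < y := lt_of_lt_of_le h5 hy1
  have h6 : Real.log (x + y) ≤ Real.log 2 + Real.log x := by
    rw [← Real.log_mul (by norm_num) (by linarith)]
    exact Real.log_le_log (by linarith) (by linarith)
  have h7 : Real.log 2 ≤ 1 := by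
    have := Real.log_two_lt_d9
    linarith
  have h8 : 0 ≤ Real.log (x + y) := Real.log_nonneg (by linarith)
  constructor
  · have h9 : Real.log (x + y) ^ a ≤ (2 * Real.log x) ^ a :=
      Real.rpow_le_rpow h8 (by linarith) ha.le
    rw [Real.mul_rpow (by norm_num) (by linarith)] at h9
    rw [div_le_iff₀ hδ] at h1
    have h10 : Real.log x ^ b = Real.log x ^ (b - a) * Real.log x ^ a := by
      rw [← Real.rpow_add (by linarith)]
      congr 1
      ring
    have h11 : 0 < Real.log x ^ a := by positivity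
    calc Real.log (x + y) ^ a ≤ 2 ^ a * Real.log x ^ a := h9
      _ ≤ (Real.log x ^ (b - a) * δ) * Real.log x ^ a := by gcongr
      _ = δ * Real.log x ^ b := by rw [h10]; ring
      _ ≤ δ * y := by gcongr
  · rw [div_le_iff₀ hδ] at h2
    linarith

lemma ev_nonneg (a : ℝ) : ∀ᶠ x : ℝ in atTop, 0 ≤ R x (Real.log x ^ a) := by
  filter_upwards [eventually_ge_atTop (1 : ℝ)] with x hx
  exact R_nonneg hx (Real.rpow_nonneg (Real.log_nonneg hx) _)

lemma transfer_lower {a b c : ℝ} (ha : 0 < a) (hab : a < b) (hc : (c : EReal) < L a) :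
    ∀ᶠ x : ℝ in atTop, ∀ y : ℝ, Real.log x ^ b ≤ y → y ≤ x → c ≤ R x y := by
  rcases le_or_gt c 0 with hc0 | hc0
  · filter_upwards [eventually_ge_atTop (1 : ℝ)] with x hx y hy _
    have h1 : 0 ≤ Real.log x ^ b := Real.rpow_nonneg (Real.log_nonneg hx) _
    exact hc0.trans (R_nonneg hx (h1.trans hy))
  · obtain ⟨c', h1, h2⟩ := EReal.lt_iff_exists_real_btwn.1 hc
    have h1' : c < c' := by exact_mod_cast h1
    have h3 := eventually_lt_of_lt_liminf h2
    obtain ⟨X, hX⟩ := eventually_atTop.1 h3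
    set X' := max X (Real.exp 1) with hX'
    set δ : ℝ := (c' - c) / (c' + c) with hδ
    have hδ0 : 0 < δ := by
      rw [hδ]
      apply div_pos <;> linarith
    filter_upwards [asym ha hab hδ0, eventually_ge_atTop X',
      Real.tendsto_log_atTop.eventually_ge_atTop 1] with x h4 h5 h6
    intro y hy1 hy2
    obtain ⟨h7, h8⟩ := h4 y hy1 hy2
    have hb : 0 < Real.log x ^ b := by positivity
    have hy0 : 0 < y := lt_of_lt_of_le hb hy1
    have hxe : Real.exp 1 ≤ x := (le_max_right _ _).trans h5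
    have he : 0 < Real.exp 1 := Real.exp_pos _
    have h9 := lower ha (by linarith : (0 : ℝ) ≤ c') (le_max_right X (Real.exp 1))
      (fun z hz => by
        have := hX z ((le_max_left _ _).trans hz)
        exact_mod_cast this.le) h5 hy0.le
    rw [R_eq, le_div_iff₀ (by positivity)]
    refine le_trans ?_ h9
    have hl : 0 < Real.log (x + y) := by
      have := log_ge_one (show Real.exp 1 ≤ x + y by linarith)
      linarith
    have hδ1 : δ < 1 := by
      rw [hδ, div_lt_one (by linarith)]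
      linarith
    have e1 : c * (1 + δ) = c' * (1 - δ) := by
      rw [hδ]
      have : c' + c ≠ 0 := by linarith
      field_simp
      ring
    have h10 : (1 - δ) * y / ((1 + δ) * Real.log x) ≤ (y - Real.log (x + y) ^ a) / Real.log (x + y) := by
      rw [div_le_div_iff₀ (by positivity) hl]
      have i1 : (1 - δ) * y ≤ y - Real.log (x + y) ^ a := by linarith
      have i2 : 0 ≤ (1 - δ) * y := mul_nonneg (by linarith) hy0.le
      exact mul_le_mul i1 h8 hl.le (i2.trans i1)
    have h11 := mul_le_mul_of_nonneg_left h10 (by linarith : (0 : ℝ) ≤ c')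
    refine le_trans (le_of_eq ?_) h11
    have e2 : c' * ((1 - δ) * y / ((1 + δ) * Real.log x)) = (c' * (1 - δ)) * (y / ((1 + δ) * Real.log x)) := by
      ring
    rw [e2, ← e1]
    have : (1 + δ) ≠ 0 := by positivity
    have : Real.log x ≠ 0 := by positivity
    field_simp

lemma transfer_upper {a b c : ℝ} (ha : 0 < a) (hab : a < b) (hc : U a < (c : EReal)) :
    ∀ᶠ x : ℝ in atTop, ∀ y : ℝ, Real.log x ^ b ≤ y → y ≤ x → R x y ≤ c := by
  obtain ⟨c', h1, h2⟩ := EReal.lt_iff_exists_real_btwn.1 hc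
  have h2' : c' < c := by exact_mod_cast h2
  have h3 := eventually_lt_of_limsup_lt h1
  obtain ⟨X, hX⟩ := eventually_atTop.1 h3
  have hc' : 0 < c' := by
    obtain ⟨x, hx1, hx2⟩ := (h3.and (ev_nonneg a)).exists
    have : R x (Real.log x ^ a) < c' := by exact_mod_cast hx1
    linarith
  set δ : ℝ := (c - c') / c' with hδ
  have hδ0 : 0 < δ := by
    rw [hδ]
    apply div_pos <;> linarith
  filter_upwards [asym ha hab hδ0, eventually_ge_atTop (max X (Real.exp 1)),
    Real.tendsto_log_atTop.eventually_ge_atTop 1] with x h4 h5 h6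
  intro y hy1 hy2
  obtain ⟨h7, h8⟩ := h4 y hy1 hy2
  have hb : 0 < Real.log x ^ b := by positivity
  have hy0 : 0 < y := lt_of_lt_of_le hb hy1
  have h9 := upper ha hc'.le (le_max_right X (Real.exp 1))
    (fun z hz => by
      have := hX z ((le_max_left _ _).trans hz)
      exact_mod_cast this.le) h5 hy0.le
  rw [R_eq, div_le_iff₀ (by positivity)]
  refine h9.trans ?_
  have h10 : (y + Real.log (x + y) ^ a) / Real.log x ≤ ((1 + δ) * y) / Real.log x := by
    gcongr
    linarith
  refine (mul_le_mul_of_nonneg_left h10 hc'.le).trans (le_of_eq ?_)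
  have e1 : c' * (1 + δ) = c := by
    rw [hδ]
    field_simp
    ring
  rw [← e1]
  ring

lemma pow_le_self (b : ℝ) : ∀ᶠ x : ℝ in atTop, Real.log x ^ b ≤ x := by
  have h := (isLittleO_log_rpow_rpow_atTop b (one_pos)).bound one_pos
  filter_upwards [h, eventually_ge_atTop (1 : ℝ)] with x h1 h2
  rw [Real.rpow_one, one_mul, Real.norm_of_nonneg (Real.rpow_nonneg (Real.log_nonneg h2) _),
    Real.norm_of_nonneg (by linarith)] at h1
  exact h1

lemma L_mono {a b : ℝ} (ha : 0 < a) (hab : a ≤ b) : L a ≤ L b := by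
  rcases hab.eq_or_lt with rfl | hab
  · exact le_rfl
  refine le_of_forall_lt_imp_le_of_dense fun c hc => ?_
  obtain ⟨r, h1, h2⟩ := EReal.lt_iff_exists_real_btwn.1 hc
  refine h1.le.trans ?_
  refine le_liminf_of_le (by isBoundedDefault) ?_
  filter_upwards [transfer_lower ha hab h2, pow_le_self b] with x h3 h4
  exact_mod_cast h3 _ le_rfl h4

lemma U_anti {a b : ℝ} (ha : 0 < a) (hab : a ≤ b) : U b ≤ U a := by
  rcases hab.eq_or_lt with rfl | hab
  · exact le_rfl
  refine le_of_forall_gt_imp_ge_of_dense fun c hc => ?_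
  obtain ⟨r, h1, h2⟩ := EReal.lt_iff_exists_real_btwn.1 hc
  refine le_trans ?_ h2.le
  refine limsup_le_of_le (by isBoundedDefault) ?_
  filter_upwards [transfer_upper ha hab h1, pow_le_self b] with x h3 h4
  exact_mod_cast h3 _ le_rfl h4

lemma bounds {a ε : ℝ} (h : ∀ᶠ x : ℝ in atTop, |R x (Real.log x ^ a) - 1| ≤ ε) :
    ((1 - ε : ℝ) : EReal) ≤ L a ∧ U a ≤ ((1 + ε : ℝ) : EReal) ∧ L a ≤ U a := by
  refine ⟨?_, ?_, liminf_le_limsup⟩
  · refine le_liminf_of_le (by isBoundedDefault) ?_
    filter_upwards [h] with x hx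
    have := (abs_le.1 hx).1
    exact_mod_cast (by linarith : 1 - ε ≤ R x (Real.log x ^ a))
  · refine limsup_le_of_le (by isBoundedDefault) ?_
    filter_upwards [h] with x hx
    have := (abs_le.1 hx).2
    exact_mod_cast (by linarith : R x (Real.log x ^ a) ≤ 1 + ε)

/-- for every `ε` one exponent `a` for which `R(x, (log x) ^ a)` is within `ε` of `1` for all large `x` -/
def OneScale : Prop := ∀ ε : ℝ, 0 < ε → ∃ a : ℝ, 0 < a ∧
  ∀ᶠ x : ℝ in atTop, |R x (Real.log x ^ a) - 1| ≤ ε

lemma uniform_of_oneScale (h : OneScale) : Uniform := by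
  intro ε hε
  obtain ⟨a, ha, h1⟩ := h (ε / 2) (by linarith)
  obtain ⟨h2, h3, -⟩ := bounds h1
  have h4 : ((1 - ε : ℝ) : EReal) < L a :=
    lt_of_lt_of_le (by exact_mod_cast (by linarith : 1 - ε < 1 - ε / 2)) h2
  have h5 : U a < ((1 + ε : ℝ) : EReal) :=
    lt_of_le_of_lt h3 (by exact_mod_cast (by linarith : 1 + ε / 2 < 1 + ε))
  obtain ⟨X, hX⟩ := eventually_atTop.1 ((transfer_lower ha (lt_add_one a) h4).and
    (transfer_upper ha (lt_add_one a) h5))
  refine ⟨max (a + 1) (max X (Real.exp 1)), ?_, ?_⟩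
  · exact lt_of_lt_of_le (by linarith) (le_max_left _ _)
  · intro x y hx hy1 hy2
    have hxX : X ≤ x := ((le_max_left _ _).trans (le_max_right _ _)).trans hx
    have hxe : Real.exp 1 ≤ x := ((le_max_right _ _).trans (le_max_right _ _)).trans hx
    have hy : Real.log x ^ (a + 1) ≤ y :=
      (Real.rpow_le_rpow_of_exponent_le (log_ge_one hxe) (le_max_left _ _)).trans hy1
    obtain ⟨h6, h7⟩ := hX x hxX
    have h8 := h6 y hy hy2
    have h9 := h7 y hy hy2
    rw [abs_le]
    constructor <;> linarith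

lemma ev_of_uniform (h : Uniform) {ε : ℝ} (hε : 0 < ε) : ∃ N : ℝ, 1 < N ∧ ∀ a : ℝ, N ≤ a →
    ∀ᶠ x : ℝ in atTop, |R x (Real.log x ^ a) - 1| ≤ ε := by
  obtain ⟨N, hN, h1⟩ := h ε hε
  refine ⟨N, hN, fun a ha => ?_⟩
  filter_upwards [eventually_ge_atTop N, eventually_ge_atTop (Real.exp 1), pow_le_self a] with x h2 h3 h4
  exact h1 x _ h2 (Real.rpow_le_rpow_of_exponent_le (log_ge_one h3) ha) h4

/-- **One scale controls all larger scales.**
(1) Let `0 < a < b`. Every real `c < L(a)` satisfies `c ≤ R(x, y)`, and every real `c > U(a)` satisfies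
`R(x, y) ≤ c`, for all large `x` and all `y` with `(log x) ^ b ≤ y ≤ x`.
(2) `L` is nondecreasing and `U` is nonincreasing on the positive reals.
(3) The assertion of Q1 holds if and only if `L(a)` and `U(a)` tend to `1` as `a → ∞`.
(4) It holds if and only if for every `ε > 0` there is one `a > 0` with `|R(x, (log x) ^ a) - 1| ≤ ε` for
all large `x`. -/
theorem result :
    (∀ a b c : ℝ, 0 < a → a < b →
      ((c : EReal) < L a →
        ∀ᶠ x : ℝ in atTop, ∀ y : ℝ, Real.log x ^ b ≤ y → y ≤ x → c ≤ R x y) ∧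
      (U a < (c : EReal) →
        ∀ᶠ x : ℝ in atTop, ∀ y : ℝ, Real.log x ^ b ≤ y → y ≤ x → R x y ≤ c)) ∧
    (∀ a b : ℝ, 0 < a → a ≤ b → L a ≤ L b ∧ U b ≤ U a) ∧
    (Uniform ↔ Tendsto L atTop (𝓝 1) ∧ Tendsto U atTop (𝓝 1)) ∧
    (Uniform ↔ OneScale) := by
  have huo : Uniform → OneScale := by
    intro h ε hε
    obtain ⟨N, hN, h1⟩ := ev_of_uniform h hε
    exact ⟨N, by linarith, h1 N le_rfl⟩
  refine ⟨fun a b c ha hab => ⟨transfer_lower ha hab, transfer_upper ha hab⟩,
    fun a b ha hab => ⟨L_mono ha hab, U_anti ha hab⟩, ⟨?_, ?_⟩, huo, uniform_of_oneScale⟩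
  · intro h
    constructor
    · rw [tendsto_order]
      constructor
      · intro c hc
        obtain ⟨r, h1, h2⟩ := EReal.lt_iff_exists_real_btwn.1 hc
        have h2' : r < 1 := by exact_mod_cast h2
        obtain ⟨N, -, h3⟩ := ev_of_uniform h (show 0 < 1 - r by linarith)
        filter_upwards [eventually_ge_atTop N] with a ha
        refine lt_of_lt_of_le h1 ?_
        have := (bounds (h3 a ha)).1
        rwa [sub_sub_cancel] at this
      · intro c hc
        obtain ⟨r, h1, h2⟩ := EReal.lt_iff_exists_real_btwn.1 hc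
        have h1' : 1 < r := by exact_mod_cast h1
        obtain ⟨N, -, h3⟩ := ev_of_uniform h (show 0 < r - 1 by linarith)
        filter_upwards [eventually_ge_atTop N] with a ha
        refine lt_of_le_of_lt ?_ h2
        have h4 := (bounds (h3 a ha)).2
        rw [add_sub_cancel] at h4
        exact h4.2.trans h4.1
    · rw [tendsto_order]
      constructor
      · intro c hc
        obtain ⟨r, h1, h2⟩ := EReal.lt_iff_exists_real_btwn.1 hc
        have h2' : r < 1 := by exact_mod_cast h2
        obtain ⟨N, -, h3⟩ := ev_of_uniform h (show 0 < 1 - r by linarith)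
        filter_upwards [eventually_ge_atTop N] with a ha
        refine lt_of_lt_of_le h1 ?_
        have h4 := bounds (h3 a ha)
        rw [sub_sub_cancel] at h4
        exact h4.1.trans h4.2.2
      · intro c hc
        obtain ⟨r, h1, h2⟩ := EReal.lt_iff_exists_real_btwn.1 hc
        have h1' : 1 < r := by exact_mod_cast h1
        obtain ⟨N, -, h3⟩ := ev_of_uniform h (show 0 < r - 1 by linarith)
        filter_upwards [eventually_ge_atTop N] with a ha
        refine lt_of_le_of_lt ?_ h2
        have h4 := (bounds (h3 a ha)).2.1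
        rwa [add_sub_cancel] at h4
  · rintro ⟨hL, hU⟩
    apply uniform_of_oneScale
    intro ε hε
    have h1 : ((1 - ε : ℝ) : EReal) < 1 := by exact_mod_cast (by linarith : 1 - ε < (1 : ℝ))
    have h2 : (1 : EReal) < ((1 + ε : ℝ) : EReal) := by exact_mod_cast (by linarith : (1 : ℝ) < 1 + ε)
    obtain ⟨a, ha1, ha2, ha3⟩ := (((tendsto_order.1 hL).1 _ h1).and
      (((tendsto_order.1 hU).2 _ h2).and (eventually_gt_atTop (0 : ℝ)))).exists
    refine ⟨a, ha3, ?_⟩
    filter_upwards [eventually_lt_of_lt_liminf ha1, eventually_lt_of_limsup_lt ha2] with x h3 h4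
    have h3' : 1 - ε < R x (Real.log x ^ a) := by exact_mod_cast h3
    have h4' : R x (Real.log x ^ a) < 1 + ε := by exact_mod_cast h4
    rw [abs_le]
    constructor <;> linarith

end Pool.Agent.Results.MP_293bbf_nt.OneScaleSuffices
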